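import Pool.Agent.Lib.MP_528c50_co.Defs

/-! Flips along the chain, endpoints, connectedness, colouring and degrees. -/

namespace Pool.Agent.Lib.MP_528c50_co

open Vx

variable {n : ℕ} {a : Bool} {c : Fin (n + 1) → Bool} {e : Bool}

/-- Flip the pairs between the gadgets along `y`. -/
def flip (y : ℕ → Bool) : Vx n → Vx n
  | mid j l r => mid j (xor l (y j)) (xor r (y (j + 1)))
  | pl j b => pl j (xor b (y j))
  | pm j b => pm j (xor b (xor (y j) (y (j + 1))))
  | pr j b => pr j (xor b (y (j + 1)))
  | pend j => pend j
  | endl => endl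
  | endr => endr

theorem flip_flip (y : ℕ → Bool) (v : Vx n) : flip y (flip y v) = v := by
  cases v <;> simp [flip]

theorem xor_cancel (p q y : Bool) : xor p y = xor q y ↔ p = q := by
  revert p q y; decide

theorem flip_R (y : ℕ → Bool) (u v : Vx n) :
    R (xor a (y 0)) (fun j => xor (c j) (xor (y j) (y (j + 1)))) (xor e (y (n + 1)))
      (flip y u) (flip y v) ↔ R a c e u v := by
  cases u <;> cases v <;> simp only [flip, R]
  all_goals refine and_congr_right fun h => ?_
  · subst h; exact xor_cancel _ _ _
  · subst h
    rename_i j l r b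
    generalize y j = p
    generalize y (j + 1) = q
    revert l r b p q; decide
  · subst h; exact xor_cancel _ _ _
  · rw [h]; exact xor_cancel _ _ _
  · subst h; exact xor_cancel _ _ _
  · rw [h]; exact xor_cancel _ _ _
  · rw [h]; exact xor_cancel _ _ _

/-- The pendant vertices. -/
def IsPend : Vx n → Prop
  | pend _ => True
  | endl => True
  | endr => True
  | _ => False

theorem end_iff (v : Vx n) : (∃! w, (Gr a c e).Adj v w) ↔ IsPend v := by
  have key : ∀ w w' : Vx n, w ∈ nb a c e v → w' ∈ nb a c e v → w ≠ w' →
      ¬ ∃! w, (Gr a c e).Adj v w :=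
    fun w w' h h' hn hu => hn (hu.unique (adj_iff.2 h) (adj_iff.2 h'))
  cases v with
  | mid j l r => exact iff_of_false (key (pl j l) (pr j r) (by simp [nb]) (by simp [nb]) (by simp)) id
  | pl j b =>
    exact iff_of_false (key (mid j b false) (mid j b true) (by simp [nb]) (by simp [nb]) (by simp)) id
  | pm j b =>
    exact iff_of_false
      (key (mid j false b) (mid j true (!b)) (by simp [nb]) (by simp [nb]) (by simp)) id
  | pr j b =>
    exact iff_of_false (key (mid j false b) (mid j true b) (by simp [nb]) (by simp [nb]) (by simp)) id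
  | pend j => exact iff_of_true (by simp [adj_iff, nb]) trivial
  | endl => exact iff_of_true (by simp [adj_iff, nb]) trivial
  | endr => exact iff_of_true (by simp [adj_iff, nb]) trivial

theorem ncard_pend (n : ℕ) : {v : Vx n | IsPend v}.ncard = n + 3 := by
  let f : Fin (n + 1) ⊕ Bool → Vx n := Sum.elim pend fun b => if b then endr else endl
  have hf : Function.Injective f := by
    rintro (i | i) (j | j) h
    · simpa [f] using h
    · cases j <;> simp [f] at h
    · cases i <;> simp [f] at h
    · cases i <;> cases j <;> simp [f] at h ⊢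
  have : {v : Vx n | IsPend v} = Set.range f := by
    ext v
    constructor
    · intro h
      cases v with
      | pend j => exact ⟨.inl j, rfl⟩
      | endl => exact ⟨.inr false, rfl⟩
      | endr => exact ⟨.inr true, rfl⟩
      | _ => exact h.elim
    · rintro ⟨i | i, rfl⟩
      · trivial
      · cases i <;> trivial
  rw [this, Set.ncard_range_of_injective hf]
  simp

theorem deg_le (v : Vx n) : ((Gr a c e).neighborSet v).ncard ≤ 3 := by
  classical
  have : (Gr a c e).neighborSet v = ((nb a c e v).toFinset : Set (Vx n)) := by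
    ext w
    simp [adj_iff]
  rw [this, Set.ncard_coe_finset]
  exact (List.toFinset_card_le _).trans (nb_len a c e v)

/-- A proper colouring with two colours. -/
def col : Vx n → ZMod 2
  | mid j _ _ => j.val
  | pl j _ => j.val + 1
  | pm j _ => j.val + 1
  | pr j _ => j.val + 1
  | pend j => j.val
  | endl => 0
  | endr => n

theorem col_R {u v : Vx n} (h : R a c e u v) : col u + 1 = col v := by
  cases u <;> cases v <;> simp only [R] at h <;> simp only [col]
  · rw [h.1]
  · rw [h.1]
  · rw [h.1]
  · rw [← h.1]; push_cast; rfl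
  · rw [h.1]
  · rw [h.1]; simp
  · rw [h.1]

theorem colorable : (Gr a c e).Colorable 2 := by
  have h1 : ∀ x : ZMod 2, x + 1 ≠ x := by decide
  have C : (Gr a c e).Coloring (ZMod 2) := SimpleGraph.Coloring.mk col fun {u v} h huv => by
    rcases h with h | h
    · exact h1 _ ((col_R h).trans huv.symm)
    · exact h1 _ ((col_R h).trans huv)
  simpa using C.colorable

theorem reach_mid (j : Fin (n + 1)) (l r : Bool) :
    (Gr a c e).Reachable (mid j l r) (mid j false false) := by
  have h1 : ∀ l r r' : Bool, (Gr a c e).Reachable (mid j l r) (mid j l r') := fun l r r' =>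
    (SimpleGraph.Adj.reachable (v := pl j l) (Or.inl ⟨rfl, rfl⟩)).trans
      (SimpleGraph.Adj.reachable (Or.inr ⟨rfl, rfl⟩))
  have h2 : ∀ l l' r : Bool, (Gr a c e).Reachable (mid j l r) (mid j l' r) := fun l l' r =>
    (SimpleGraph.Adj.reachable (v := pr j r) (Or.inl ⟨rfl, rfl⟩)).trans
      (SimpleGraph.Adj.reachable (Or.inr ⟨rfl, rfl⟩))
  exact (h1 l r false).trans (h2 l false false)

theorem reach_zero (j : Fin (n + 1)) (l r : Bool) :
    (Gr a c e).Reachable (mid j l r) (mid 0 false false) := by
  induction j using Fin.induction generalizing l r with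
  | zero => exact reach_mid 0 l r
  | succ i ih =>
    exact (SimpleGraph.Adj.reachable (v := pl i.succ l) (Or.inl ⟨rfl, rfl⟩)).trans
      ((SimpleGraph.Adj.reachable (v := pr i.castSucc l) (Or.inr ⟨rfl, rfl⟩)).trans
        ((SimpleGraph.Adj.reachable (v := mid i.castSucc false l) (Or.inr ⟨rfl, rfl⟩)).trans
          (ih false l)))

theorem connected : (Gr a c e).Connected := by
  have hl : ∀ j b, (Gr a c e).Reachable (pl j b) (mid 0 false false) := fun j b =>
    (SimpleGraph.Adj.reachable (v := mid j b false) (Or.inr ⟨rfl, rfl⟩)).trans (reach_zero j _ _)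
  have hm : ∀ j b, (Gr a c e).Reachable (pm j b) (mid 0 false false) := fun j b =>
    (SimpleGraph.Adj.reachable (v := mid j false b) (Or.inr ⟨rfl, by simp⟩)).trans
      (reach_zero j _ _)
  have hr : ∀ j b, (Gr a c e).Reachable (pr j b) (mid 0 false false) := fun j b =>
    (SimpleGraph.Adj.reachable (v := mid j false b) (Or.inr ⟨rfl, rfl⟩)).trans (reach_zero j _ _)
  have key : ∀ v, (Gr a c e).Reachable v (mid 0 false false) := by
    intro v
    cases v with
    | mid j l r => exact reach_zero j l r
    | pl j b => exact hl j b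
    | pm j b => exact hm j b
    | pr j b => exact hr j b
    | pend j => exact (SimpleGraph.Adj.reachable (v := pm j (c j)) (Or.inl ⟨rfl, rfl⟩)).trans (hm _ _)
    | endl => exact (SimpleGraph.Adj.reachable (v := pl 0 a) (Or.inl ⟨rfl, rfl⟩)).trans (hl _ _)
    | endr =>
      exact (SimpleGraph.Adj.reachable (v := pr (Fin.last n) e) (Or.inl ⟨rfl, rfl⟩)).trans (hr _ _)
  have : Nonempty (Vx n) := ⟨endl⟩
  exact ⟨fun u v => (key u).trans (key v).symm⟩

/-- The position of a pendant vertex matters only for the edge at that vertex. -/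
theorem R_congr {a' : Bool} {c' : Fin (n + 1) → Bool} {e' : Bool} {u : Vx n} (v : Vx n)
    (ha : u = endl → a = a') (hc : ∀ j, u = pend j → c j = c' j) (he : u = endr → e = e') :
    R a c e u v ↔ R a' c' e' u v := by
  cases u <;> cases v <;> simp only [R]
  · rw [hc _ rfl]
  · rw [ha rfl]
  · rw [he rfl]

/-- After the deletion of a pendant vertex the twisted chain looks like the plain chain. -/
theorem card_flip (x : Vx n) (hx : IsPend x) : ∃ φ : Equiv.Perm (Vx n), φ x = x ∧
    ∀ u v, u ≠ x → v ≠ x → ((Gr true (fun _ => false) false).Adj (φ u) (φ v) ↔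
      (Gr false (fun _ => false) false).Adj u v) := by
  have key : ∀ y : ℕ → Bool, flip y x = x → (endl ≠ x → y 0 = true) →
      (∀ j : Fin (n + 1), pend j ≠ x → y j = y (j + 1)) → (endr ≠ x → y (n + 1) = false) →
      ∃ φ : Equiv.Perm (Vx n), φ x = x ∧ ∀ u v, u ≠ x → v ≠ x →
        ((Gr true (fun _ => false) false).Adj (φ u) (φ v) ↔
          (Gr false (fun _ => false) false).Adj u v) := by
    intro y h0 h1 h2 h3
    have h : ∀ u v : Vx n, u ≠ x → (R true (fun _ => false) false (flip y u) (flip y v) ↔
        R false (fun _ => false) false u v) := by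
      intro u v hu
      rw [← flip_R y u v]
      have hfix : ∀ w, flip y w = w → flip y u = w → w ≠ x := fun w hw h => by
        have : u = w := by rw [← flip_flip y u, h, hw]
        rwa [← this]
      refine R_congr _ (fun h => ?_) (fun j h => ?_) fun h => ?_
      · simp [h1 (hfix _ rfl h)]
      · simp [h2 j (hfix _ rfl h)]
      · simp [h3 (hfix _ rfl h)]
    exact ⟨Function.Involutive.toPerm (flip y) (flip_flip y), h0, fun u v hu hv =>
      or_congr (h u v hu) (h v u hv)⟩
  cases x with
  | pend i =>
    refine key (fun m => decide (m ≤ i.val)) rfl (fun _ => by simp) (fun j hj => ?_) fun _ => ?_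
    · have : j.val ≠ i.val := fun h => hj (by rw [Fin.ext h])
      rw [decide_eq_decide]
      omega
    · have := i.2
      simp only [decide_eq_false_iff_not]
      omega
  | endl => exact key (fun _ => false) rfl (fun h => (h rfl).elim) (fun _ _ => rfl) fun _ => rfl
  | endr => exact key (fun _ => true) rfl (fun _ => rfl) (fun _ _ => rfl) fun h => (h rfl).elim
  | _ => exact hx.elim

end Pool.Agent.Lib.MP_528c50_co
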