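import Mathlib

/-!
A chain of parity gadgets. Each gadget has four middle vertices, three pairs of ports and one
pendant vertex; two more pendant vertices sit at the two ends of the chain.
-/

namespace Pool.Agent.Lib.MP_528c50_co

/-- Vertices of the chain with `n + 1` gadgets. -/
inductive Vx (n : ℕ) : Type
  | mid (j : Fin (n + 1)) (l r : Bool) : Vx n
  | pl (j : Fin (n + 1)) (b : Bool) : Vx n
  | pm (j : Fin (n + 1)) (b : Bool) : Vx n
  | pr (j : Fin (n + 1)) (b : Bool) : Vx n
  | pend (j : Fin (n + 1)) : Vx n
  | endl : Vx n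
  | endr : Vx n

open Vx

variable {n : ℕ}

/-- The vertices as a sum of products. -/
def vxEquiv (n : ℕ) : Vx n ≃ (Fin (n + 1) × ((Bool × Bool) ⊕ Bool ⊕ Bool ⊕ Bool ⊕ Unit)) ⊕ Bool where
  toFun
    | mid j l r => .inl (j, .inl (l, r))
    | pl j b => .inl (j, .inr (.inl b))
    | pm j b => .inl (j, .inr (.inr (.inl b)))
    | pr j b => .inl (j, .inr (.inr (.inr (.inl b))))
    | pend j => .inl (j, .inr (.inr (.inr (.inr ()))))
    | endl => .inr false
    | endr => .inr true
  invFun
    | .inl (j, .inl (l, r)) => mid j l r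
    | .inl (j, .inr (.inl b)) => pl j b
    | .inl (j, .inr (.inr (.inl b))) => pm j b
    | .inl (j, .inr (.inr (.inr (.inl b)))) => pr j b
    | .inl (j, .inr (.inr (.inr (.inr _)))) => pend j
    | .inr false => endl
    | .inr true => endr
  left_inv v := by cases v <;> rfl
  right_inv := by
    rintro (⟨j, ⟨l, r⟩ | b | b | b | u⟩ | b)
    all_goals first | rfl | (cases b <;> rfl)

theorem card_vx (n : ℕ) : Nat.card (Vx n) = 11 * n + 13 := by
  rw [Nat.card_congr (vxEquiv n)]
  simp
  ring

theorem finite_vx (n : ℕ) : Finite (Vx n) := Finite.of_equiv _ (vxEquiv n).symm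

/-- The edges, written in one direction; `a`, `c`, `e` say where the pendant vertices hang. -/
def R (a : Bool) (c : Fin (n + 1) → Bool) (e : Bool) : Vx n → Vx n → Prop
  | mid j l _, pl i b => j = i ∧ l = b
  | mid j l r, pm i b => j = i ∧ xor l r = b
  | mid j _ r, pr i b => j = i ∧ r = b
  | pr j b, pl i d => j.val + 1 = i.val ∧ b = d
  | pend j, pm i b => j = i ∧ c j = b
  | endl, pl j b => j.val = 0 ∧ a = b
  | endr, pr j b => j.val = n ∧ e = b
  | _, _ => False

/-- The chain graph. -/
def Gr (a : Bool) (c : Fin (n + 1) → Bool) (e : Bool) : SimpleGraph (Vx n) where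
  Adj u v := R a c e u v ∨ R a c e v u
  symm := ⟨fun _ _ h => h.symm⟩
  loopless := ⟨fun u => by cases u <;> simp [R]⟩

theorem gr_adj {a : Bool} {c : Fin (n + 1) → Bool} {e : Bool} {u v : Vx n} :
    (Gr a c e).Adj u v ↔ R a c e u v ∨ R a c e v u := Iff.rfl

/-- The list of neighbours. -/
def nb (a : Bool) (c : Fin (n + 1) → Bool) (e : Bool) : Vx n → List (Vx n)
  | mid j l r => [pl j l, pm j (xor l r), pr j r]
  | pl j b => mid j b false :: mid j b true ::
      (if j.val = 0 then (if a = b then [endl] else []) else [pr ⟨j.val - 1, by omega⟩ b])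
  | pm j b => mid j false b :: mid j true (!b) :: (if c j = b then [pend j] else [])
  | pr j b => mid j false b :: mid j true b ::
      (if h : j.val = n then (if e = b then [endr] else []) else [pl ⟨j.val + 1, by omega⟩ b])
  | pend j => [pm j (c j)]
  | endl => [pl 0 a]
  | endr => [pr (Fin.last n) e]

theorem adj_iff {a : Bool} {c : Fin (n + 1) → Bool} {e : Bool} {u v : Vx n} :
    (Gr a c e).Adj u v ↔ v ∈ nb a c e u := by
  rw [gr_adj]
  cases u with
  | mid j l r => cases v <;> simp [R, nb, eq_comm]
  | pl j b =>
    by_cases h : j.val = 0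
    · by_cases h' : a = b <;> cases v <;> simp [R, nb, h, h', ← and_or_left]
    · cases v <;> simp [R, nb, h, ← and_or_left, Fin.ext_iff]
      omega
  | pm j b =>
    by_cases h' : c j = b
    · cases v with
      | mid i l r => cases l <;> cases r <;> cases b <;> simp [R, nb, h']
      | pend i =>
        simp only [R, nb, h', false_or, if_true, List.mem_cons, reduceCtorEq, pend.injEq,
          List.not_mem_nil, or_false]
        exact ⟨fun h => h.1, fun h => ⟨h, h ▸ h'⟩⟩
      | _ => simp [R, nb, h']
    · cases v with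
      | mid i l r => cases l <;> cases r <;> cases b <;> simp [R, nb, h']
      | pend i =>
        simp only [R, nb, h', false_or, if_false, List.mem_cons, reduceCtorEq,
          List.not_mem_nil, or_false, iff_false]
        exact fun h => h' (h.1 ▸ h.2)
      | _ => simp [R, nb, h']
  | pr j b =>
    by_cases h : j.val = n
    · by_cases h' : e = b
      · cases v with
        | mid i l r => cases l <;> simp [R, nb, h, h']
        | pl i d => simp [R, nb, h, h']; omega
        | _ => simp [R, nb, h, h']
      · cases v with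
        | mid i l r => cases l <;> simp [R, nb, h, h']
        | pl i d => simp [R, nb, h, h']; omega
        | _ => simp [R, nb, h, h']
    · cases v with
      | mid i l r => cases l <;> simp [R, nb, h]
      | pl i d => simp [R, nb, h, Fin.ext_iff, eq_comm]
      | _ => simp [R, nb, h]
  | pend j =>
    cases v with
    | pm i b =>
      simp only [R, nb, or_false, List.mem_singleton, pm.injEq]
      exact ⟨fun h => ⟨h.1.symm, h.2.symm⟩, fun h => ⟨h.1.symm, h.2.symm⟩⟩
    | _ => simp [R, nb]
  | endl => cases v <;> simp [R, nb, @eq_comm _ a]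
  | endr => cases v <;> simp [R, nb, eq_comm, Fin.ext_iff]

theorem nb_nodup (a : Bool) (c : Fin (n + 1) → Bool) (e : Bool) (u : Vx n) :
    (nb a c e u).Nodup := by
  cases u <;> simp only [nb] <;> (try split_ifs) <;> simp

theorem nb_len (a : Bool) (c : Fin (n + 1) → Bool) (e : Bool) (u : Vx n) :
    (nb a c e u).length ≤ 3 := by
  cases u <;> simp only [nb] <;> (try split_ifs) <;> simp

end Pool.Agent.Lib.MP_528c50_co
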