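import Pool.Agent.Lib.MP_528c50_co.Chain

/-! The invariant that separates the plain chain from the twisted chain, and the theorem. -/

namespace Pool.Agent.Lib.MP_528c50_co

open Vx

variable {n : ℕ} {a : Bool} {c : Fin (n + 1) → Bool} {e : Bool}

/-- There is a function to the field with two elements that is the sum of its values at the
neighbours and is one at the end of every walk of length two from an endpoint. -/
def Even2 {V : Type} (G : SimpleGraph V) : Prop :=
  ∃ t : V → ZMod 2, (∀ v, ∑ᶠ w ∈ G.neighborSet v, t w = t v) ∧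
    ∀ x p w, (∃! q, G.Adj x q) → G.Adj x p → G.Adj p w → t w = 1

theorem end_iso {V W : Type} {G : SimpleGraph V} {H : SimpleGraph W} (f : G ≃g H) (x : V) :
    (∃! q, G.Adj x q) ↔ ∃! q, H.Adj (f x) q :=
  f.toEquiv.existsUnique_congr fun _ => f.map_adj_iff.symm

theorem Even2.of_iso {V W : Type} {G : SimpleGraph V} {H : SimpleGraph W} (f : H ≃g G)
    (h : Even2 G) : Even2 H := by
  obtain ⟨t, h1, h2⟩ := h
  refine ⟨fun v => t (f v), fun v => ?_, fun x p w hx hp hw =>
    h2 (f x) (f p) (f w) ((end_iso f x).1 hx) (f.map_adj_iff.2 hp) (f.map_adj_iff.2 hw)⟩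
  refine (finsum_mem_eq_of_bijOn f ⟨fun w hw => f.map_adj_iff.2 hw, f.injective.injOn, ?_⟩
    fun _ _ => rfl).trans (h1 (f v))
  intro w hw
  obtain ⟨u, rfl⟩ := f.surjective w
  exact ⟨u, f.map_adj_iff.1 hw, rfl⟩

theorem sum_nb (t : Vx n → ZMod 2) (v : Vx n) :
    ∑ᶠ w ∈ (Gr a c e).neighborSet v, t w = ((nb a c e v).map t).sum := by
  classical
  have : (Gr a c e).neighborSet v = ((nb a c e v).toFinset : Set (Vx n)) := by
    ext w
    simp [adj_iff]
  rw [this, finsum_mem_coe_finset, List.sum_toFinset _ (nb_nodup a c e v)]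

/-- The solution for the plain chain. -/
def sol : Vx n → ZMod 2
  | pl _ b => if b then 0 else 1
  | pm _ b => if b then 0 else 1
  | pr _ b => if b then 0 else 1
  | _ => 1

theorem even_plain : Even2 (Gr (n := n) false (fun _ => false) false) := by
  refine ⟨sol, fun v => ?_, fun x p w hx hp hw => ?_⟩
  · rw [sum_nb]
    cases v with
    | mid j l r => cases l <;> cases r <;> (simp [nb, sol]; try decide)
    | pl j b => by_cases h : j.val = 0 <;> cases b <;> simp [nb, sol, h] <;> decide
    | pm j b => cases b <;> (simp [nb, sol]; try decide)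
    | pr j b => by_cases h : j.val = n <;> cases b <;> simp [nb, sol, h] <;> decide
    | _ => simp [nb, sol]
  · rw [end_iff] at hx
    rw [adj_iff] at hp hw
    cases x with
    | pend j =>
      obtain rfl : p = pm j false := by simpa [nb] using hp
      simp only [nb, if_true, List.mem_cons, List.not_mem_nil, or_false] at hw
      rcases hw with rfl | rfl | rfl <;> rfl
    | endl =>
      obtain rfl : p = pl 0 false := by simpa [nb] using hp
      simp only [nb, Fin.val_zero, if_true, List.mem_cons, List.not_mem_nil, or_false] at hw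
      rcases hw with rfl | rfl | rfl <;> rfl
    | endr =>
      obtain rfl : p = pr (Fin.last n) false := by simpa [nb] using hp
      simp only [nb, Fin.val_last, dite_true, if_true, List.mem_cons, List.not_mem_nil,
        or_false] at hw
      rcases hw with rfl | rfl | rfl <;> rfl
    | _ => exact hx.elim

theorem gadget : ∀ l0 l1 m0 m1 r0 r1 u v : ZMod 2, m0 = 1 → l0 + (m0 + r0) = 1 →
    l1 + (m0 + r1) = 1 → l0 + (m1 + r1) = u → l1 + (m1 + r0) = v → u + v = m1 →
    l0 = 0 → l1 = 1 → r0 = 0 ∧ r1 = 1 ∧ u = 1 ∧ v = 1 := by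
  rintro l0 l1 m0 m1 r0 r1 u v rfl h1 h2 rfl rfl h5 rfl rfl
  revert m1 r0 r1
  decide

theorem gadget0 : ∀ l0 l1 m0 m1 r0 r1 u v : ZMod 2, m0 = 1 → l0 + (m0 + r0) = 1 →
    l1 + (m0 + r1) = 1 → l0 + (m1 + r1) = u → l1 + (m1 + r0) = v → u + v = m1 →
    l1 = 1 → v = 1 → l0 = 0 ∧ l1 = 1 := by
  rintro l0 l1 m0 m1 r0 r1 u v rfl h1 h2 rfl h4 h5 rfl rfl
  revert l0 m1 r0 r1
  decide

theorem not_even_twist : ¬ Even2 (Gr (n := n) true (fun _ => false) false) := by
  rintro ⟨t, h1, h2⟩
  simp only [sum_nb] at h1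
  simp only [end_iff] at h2
  simp only [adj_iff] at h2
  have z : ∀ x : ZMod 2, 1 + (1 + x) = x := by decide
  have a0 : ∀ j, t (mid j false false) = 1 := fun j =>
    h2 (pend j) (pm j false) _ trivial (by simp [nb]) (by simp [nb])
  have a1 : ∀ j, t (mid j true true) = 1 := fun j =>
    h2 (pend j) (pm j false) _ trivial (by simp [nb]) (by simp [nb])
  have a2 : ∀ j, t (pm j false) = 1 := fun j => by
    have h := h1 (pend j)
    rw [h2 (pend j) (pm j false) (pend j) trivial (by simp [nb]) (by simp [nb])] at h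
    simpa [nb] using h
  have step : ∀ j, t (pl j false) = 0 → t (pl j true) = 1 → t (pr j false) = 0 ∧
      t (pr j true) = 1 ∧ t (mid j false true) = 1 ∧ t (mid j true false) = 1 := fun j =>
    gadget _ _ (t (pm j false)) (t (pm j true)) _ _ _ _ (a2 j)
      (by simpa [nb, a0] using h1 (mid j false false))
      (by simpa [nb, a1] using h1 (mid j true true))
      (by simpa [nb] using h1 (mid j false true)) (by simpa [nb] using h1 (mid j true false))
      (by simpa [nb] using h1 (pm j true))
  have all : ∀ j, t (pl j false) = 0 ∧ t (pl j true) = 1 := by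
    intro j
    induction j using Fin.induction with
    | zero =>
      have b1 : t (pl 0 true) = 1 := by
        have h := h1 endl
        rw [h2 endl (pl 0 true) endl trivial (by simp [nb]) (by simp [nb])] at h
        simpa [nb] using h
      have b2 : t (mid 0 true false) = 1 :=
        h2 endl (pl 0 true) _ trivial (by simp [nb]) (by simp [nb])
      exact gadget0 _ _ (t (pm 0 false)) (t (pm 0 true)) (t (pr 0 false)) (t (pr 0 true)) _ _ (a2 0)
        (by simpa [nb, a0] using h1 (mid 0 false false))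
        (by simpa [nb, a1] using h1 (mid 0 true true))
        (by simpa [nb] using h1 (mid 0 false true)) (by simpa [nb] using h1 (mid 0 true false))
        (by simpa [nb] using h1 (pm 0 true)) b1 b2
    | succ i ih =>
      obtain ⟨r0, r1, u, v⟩ := step _ ih.1 ih.2
      have hi : (i.castSucc : Fin (n + 1)).val ≠ n := by
        have := i.2
        simp only [Fin.val_castSucc]
        omega
      have e0 := h1 (pr i.castSucc false)
      have e1 := h1 (pr i.castSucc true)
      simp only [nb, hi, dite_false, List.map_cons, List.map_nil, List.sum_cons, List.sum_nil,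
        add_zero, a0, a1, u, v, r0, r1, z] at e0 e1
      exact ⟨e0, e1⟩
  have h := h1 endr
  rw [h2 endr (pr (Fin.last n) false) endr trivial (by simp [nb]) (by simp [nb])] at h
  have r0 := (step _ (all (Fin.last n)).1 (all (Fin.last n)).2).1
  simp [nb, r0] at h

theorem main (k : ℕ) (hk : 3 ≤ k) : ∃ G H : SimpleGraph (Fin (11 * k - 20)),
    (G.Connected ∧ G.Colorable 2 ∧ ∀ v, (G.neighborSet v).ncard ≤ 3) ∧
    (H.Connected ∧ H.Colorable 2 ∧ ∀ v, (H.neighborSet v).ncard ≤ 3) ∧
    {v | ∃! w, G.Adj v w}.ncard = k ∧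
    (∃ σ : {v // ∃! w, G.Adj v w} ≃ {v // ∃! w, H.Adj v w},
      ∀ v, Nonempty (G.induce {v.1}ᶜ ≃g H.induce {(σ v).1}ᶜ)) ∧
    IsEmpty (G ≃g H) := by
  obtain ⟨n, rfl⟩ : ∃ n, k = n + 3 := ⟨k - 3, by omega⟩
  have := finite_vx n
  let f : Fin (11 * (n + 3) - 20) ≃ Vx n :=
    (Finite.equivFinOfCardEq ((card_vx n).trans (by omega))).symm
  let I : ∀ a : Bool, (Gr a (fun _ => false) false).comap f ≃g Gr a (fun _ => false) false :=
    fun a => SimpleGraph.Iso.comap f _
  have hend : ∀ (a : Bool) v, (∃! w, ((Gr a (fun _ => false) false).comap f).Adj v w) ↔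
      IsPend (f v) := fun a v => (end_iso (I a) v).trans (end_iff _)
  have hgood : ∀ a : Bool, ((Gr a (fun _ => false) false).comap f).Connected ∧
      ((Gr a (fun _ => false) false).comap f).Colorable 2 ∧
      ∀ v, (((Gr a (fun _ => false) false).comap f).neighborSet v).ncard ≤ 3 := fun a =>
    ⟨(I a).connected_iff.2 connected, colorable.of_hom (I a).toHom, fun v =>
      (Set.ncard_congr' ((I a).mapNeighborSet v)).trans_le (deg_le _)⟩
  refine ⟨(Gr false (fun _ => false) false).comap f, (Gr true (fun _ => false) false).comap f,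
    hgood false, hgood true, ?_,
    ⟨Equiv.subtypeEquivRight fun v => (hend false v).trans (hend true v).symm, fun v => ?_⟩,
    ⟨fun g => not_even_twist
      (even_plain.of_iso (((I true).symm.trans g.symm).trans (I false)))⟩⟩
  · exact (Set.ncard_congr' (f.subtypeEquiv (hend false))).trans (ncard_pend n)
  · obtain ⟨φ, h0, h⟩ := card_flip (f v.1) ((hend false _).1 v.2)
    have hφ : ∀ u, u ≠ v.1 ↔ f.symm (φ (f u)) ≠ v.1 := fun u => by
      rw [Ne, Ne, Equiv.symm_apply_eq]
      rw [← h0, φ.apply_eq_iff_eq, f.apply_eq_iff_eq]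
    refine ⟨⟨(f.trans (φ.trans f.symm)).subtypeEquiv hφ, ?_⟩⟩
    rintro ⟨u, hu⟩ ⟨w, hw⟩
    have := h (f u) (f w) (fun q => hu (f.injective q)) fun q => hw (f.injective q)
    simpa using this

end Pool.Agent.Lib.MP_528c50_co
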